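import Pool.Agent.TH204.WR.W7
import Pool.Agent.Run7.h373.QW.Siv

/-!
# Project QD: the sieve model for a polynomial in a window of integers
-/

set_option autoImplicit false
set_option maxHeartbeats 1000000

namespace Run7.h373.QD

open Finset
open Polynomial (taylor natDegree)
open scoped Polynomial
open Pool.Agent.H373R2.T7 (pz Vz lamz mem_pz Vz_ge)
open Pool.Agent.TH892.SW (abel_anti abel_mono wt wt_anti wt_le wt_nonneg lamz_nonneg)
open Pool.Agent.TH204.WR (rho hh hh_nonneg)
open Run7.h373.QW (seg_mono seg_anti)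

/-- the value at the `i`-th integer of the window `(m, m + H]` -/
def vv (F : ℤ[X]) (m : ℤ) (i : ℕ) : ℤ := F.eval (m + i)

/-- an interval is a union of at most `2 ^ e` intervals on which a polynomial of degree `e` has a constant sign -/
lemma pieces (err : ℕ → ℕ → ℝ) (hsub : ∀ u v w, u ≤ v → v ≤ w → err u w ≤ err u v + err v w) (m : ℤ) :
    ∀ (e : ℕ) (G : ℤ[X]), G.natDegree ≤ e → ∀ R : ℝ,
      (∀ u v, u ≤ v → ((∀ i, u < i → i < v → 0 ≤ vv G m i) ∨ (∀ i, u < i → i < v → vv G m i ≤ 0)) → err u v ≤ R) →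
      ∀ u v, u ≤ v → err u v ≤ 2 ^ e * R := by
  intro e
  induction e with
  | zero =>
    intro G hG R h u v huv
    obtain ⟨c, hc⟩ := Polynomial.natDegree_eq_zero.1 (Nat.le_zero.1 hG)
    rw [pow_zero, one_mul]
    apply h u v huv
    rcases le_total 0 c with h1 | h1
    · left
      intro i _ _
      unfold vv
      rw [← hc, Polynomial.eval_C]
      exact h1
    · right
      intro i _ _
      unfold vv
      rw [← hc, Polynomial.eval_C]
      exact h1
  | succ e ih =>
    intro G hG R h u v huv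
    obtain ⟨D, hD⟩ : ∃ D : ℤ[X], D = taylor 1 G - G := ⟨_, rfl⟩
    have hDe : D.natDegree ≤ e := by
      rcases Nat.eq_zero_or_pos G.natDegree with h0 | h0
      · obtain ⟨c, hc⟩ := Polynomial.natDegree_eq_zero.1 h0
        have : D = 0 := by
          rw [hD, ← hc, Polynomial.taylor_C, sub_self]
        rw [this, Polynomial.natDegree_zero]
        exact Nat.zero_le _
      · have hG0 : G ≠ 0 := by
          rintro rfl
          rw [Polynomial.natDegree_zero] at h0
          omega
        have hT0 : taylor 1 G ≠ 0 := by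
          rw [Ne, ← Polynomial.leadingCoeff_eq_zero, Polynomial.leadingCoeff_taylor, Polynomial.leadingCoeff_eq_zero]
          exact hG0
        have h1 : D.degree < (taylor 1 G).degree := by
          rw [hD]
          apply Polynomial.degree_sub_lt_left
          · rw [Polynomial.degree_eq_natDegree hT0, Polynomial.degree_eq_natDegree hG0, Polynomial.natDegree_taylor]
          · exact hT0
          · exact Polynomial.leadingCoeff_taylor _ _
        rw [Polynomial.degree_eq_natDegree hT0, Polynomial.natDegree_taylor] at h1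
        rcases eq_or_ne D 0 with h2 | h2
        · rw [h2, Polynomial.natDegree_zero]
          exact Nat.zero_le _
        · rw [Polynomial.degree_eq_natDegree h2] at h1
          have h3 : D.natDegree < G.natDegree := by exact_mod_cast h1
          omega
    have hDv : ∀ i : ℕ, vv D m i = vv G m (i + 1) - vv G m i := by
      intro i
      unfold vv
      rw [hD, Polynomial.eval_sub, Polynomial.taylor_eval]
      push_cast
      rw [add_assoc]
    have key := ih D hDe (2 * R) (by
      intro u v huv hs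
      rcases hs with hs | hs
      · -- increasing
        have hmono : ∀ i, u < i → ∀ k, i + k ≤ v → vv G m i ≤ vv G m (i + k) := by
          intro i hi k
          induction k with
          | zero => intro _; exact le_rfl
          | succ k ihk =>
            intro hk
            have h1 := hs (i + k) (by omega) (by omega)
            rw [hDv] at h1
            have h2 := ihk (by omega)
            rw [← add_assoc]
            linarith
        classical
        by_cases hex : ∃ i, u < i ∧ i ≤ v ∧ 0 ≤ vv G m i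
        · obtain ⟨κ, hκ⟩ : ∃ κ, κ = Nat.find hex := ⟨_, rfl⟩
          have h1 := Nat.find_spec hex
          rw [← hκ] at h1
          have h2 : ∀ i, i < κ → ¬ (u < i ∧ i ≤ v ∧ 0 ≤ vv G m i) := fun i hi => Nat.find_min hex (by rw [← hκ]; exact hi)
          have h3 := h u κ (by omega) (Or.inr fun i hi1 hi2 => by
            have := h2 i hi2
            by_contra hc
            exact this ⟨hi1, by omega, by omega⟩)
          have h4 := h κ v h1.2.1 (Or.inl fun i hi1 hi2 => by
            have := hmono κ h1.1 (i - κ) (by omega)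
            rw [show κ + (i - κ) = i by omega] at this
            exact h1.2.2.trans this)
          have h5 := hsub u κ v (by omega) h1.2.1
          linarith
        · push Not at hex
          have h3 := h u v huv (Or.inr fun i hi1 hi2 => (hex i hi1 hi2.le).le)
          have h4 := h v v le_rfl (Or.inl fun i hi1 hi2 => by omega)
          have h5 := hsub u v v huv le_rfl
          linarith
      · -- decreasing
        have hmono : ∀ i, u < i → ∀ k, i + k ≤ v → vv G m (i + k) ≤ vv G m i := by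
          intro i hi k
          induction k with
          | zero => intro _; exact le_rfl
          | succ k ihk =>
            intro hk
            have h1 := hs (i + k) (by omega) (by omega)
            rw [hDv] at h1
            have h2 := ihk (by omega)
            rw [← add_assoc]
            linarith
        classical
        by_cases hex : ∃ i, u < i ∧ i ≤ v ∧ vv G m i ≤ 0
        · obtain ⟨κ, hκ⟩ : ∃ κ, κ = Nat.find hex := ⟨_, rfl⟩
          have h1 := Nat.find_spec hex
          rw [← hκ] at h1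
          have h2 : ∀ i, i < κ → ¬ (u < i ∧ i ≤ v ∧ vv G m i ≤ 0) := fun i hi => Nat.find_min hex (by rw [← hκ]; exact hi)
          have h3 := h u κ (by omega) (Or.inl fun i hi1 hi2 => by
            have := h2 i hi2
            by_contra hc
            exact this ⟨hi1, by omega, by omega⟩)
          have h4 := h κ v h1.2.1 (Or.inr fun i hi1 hi2 => by
            have := hmono κ h1.1 (i - κ) (by omega)
            rw [show κ + (i - κ) = i by omega] at this
            exact this.trans h1.2.2)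
          have h5 := hsub u κ v (by omega) h1.2.1
          linarith
        · push Not at hex
          have h3 := h u v huv (Or.inl fun i hi1 hi2 => (hex i hi1 hi2.le).le)
          have h4 := h v v le_rfl (Or.inl fun i hi1 hi2 => by omega)
          have h5 := hsub u v v huv le_rfl
          linarith)
    have := key u v huv
    rw [pow_succ, mul_assoc]
    exact this

open Classical in
lemma lam_sum (z : ℕ) (F : ℤ[X]) (c m : ℤ) (u v : ℕ) (huv : u ≤ v) :
    ∑ i ∈ Ioc u v, lamz z (vv F m i + c).natAbs = (Vz z)⁻¹ *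
      ((((Icc 1 (v - u)).filter (fun t : ℕ => ∀ p ∈ pz z, ¬ (p : ℤ) ∣ F.eval ((m + u) + t) + c)).card : ℕ) : ℝ) := by
  have h1 : ∑ i ∈ Ioc u v, lamz z (vv F m i + c).natAbs = ∑ t ∈ Icc 1 (v - u), lamz z (vv F m (u + t) + c).natAbs := by
    refine sum_nbij' (fun i => i - u) (fun t => u + t) ?_ ?_ ?_ ?_ ?_
    · intro i hi
      rw [mem_Ioc] at hi; rw [mem_Icc]; omega
    · intro t ht
      rw [mem_Icc] at ht; rw [mem_Ioc]; omega
    · intro i hi
      rw [mem_Ioc] at hi; omega
    · intro t ht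
      omega
    · intro i hi
      rw [mem_Ioc] at hi
      show lamz z (vv F m i + c).natAbs = lamz z (vv F m (u + (i - u)) + c).natAbs
      rw [show u + (i - u) = i by omega]
  rw [h1, card_filter]
  push_cast
  rw [mul_sum]
  refine sum_congr rfl fun t _ => ?_
  unfold lamz
  have e1 : vv F m (u + t) = F.eval ((m + u) + t) := by
    unfold vv
    push_cast
    rw [add_assoc]
  rw [e1]
  have h3 : ∀ p : ℕ, (p ∣ (F.eval ((m + u) + (t : ℤ)) + c).natAbs) ↔ ((p : ℤ) ∣ F.eval ((m + u) + (t : ℤ)) + c) := fun p => by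
    rw [← Int.natCast_dvd]
  simp only [h3]
  by_cases h4 : ∀ p ∈ pz z, ¬ (p : ℤ) ∣ F.eval ((m + u) + (t : ℤ)) + c
  · rw [if_pos h4, if_pos h4, mul_one]
  · rw [if_neg h4, if_neg h4, mul_zero]

lemma hh_eq (F : ℤ[X]) (c : ℤ) (z : ℕ) : (Vz z)⁻¹ * ∏ p ∈ pz z, (1 - (rho F c p : ℝ) / p) = hh F c z := rfl

/-- the model in intervals -/
theorem model (d : ℕ) (hd : 1 ≤ d) : ∃ C1 y0 : ℕ, 1 ≤ C1 ∧ 2 ≤ y0 ∧ ∀ k : ℕ, C1 ≤ k → ∀ z : ℕ, y0 ≤ z → ∀ (F : ℤ[X]) (c m : ℤ),
    F.natDegree ≤ d → (∀ p ∈ pz z, rho F c p < p) → ∀ u v : ℕ, u ≤ v →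
    |∑ i ∈ Ioc u v, (lamz z (vv F m i + c).natAbs - hh F c z)| ≤
      (2 * (1 / 2 : ℝ) ^ k) * hh F c z * ((v : ℝ) - u) + (z : ℝ) ^ (C1 * k + 1) := by
  classical
  obtain ⟨C1, y0, hC1, hy0, h⟩ := Pool.Agent.TH204.WR.flp d hd
  refine ⟨C1, y0, hC1, hy0, fun k hk z hz F c m hF hadm u v huv => ?_⟩
  have hz1 : 1 ≤ z := by omega
  have hV := Pool.Agent.H373R2.T7.Vz_pos z
  rw [sum_sub_distrib, lam_sum z F c m u v huv, sum_const, Nat.card_Ioc, nsmul_eq_mul]
  have e2 : (v : ℝ) - u = ((v - u : ℕ) : ℝ) := by rw [Nat.cast_sub huv]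
  rw [e2]
  obtain ⟨N, hN⟩ : ∃ N, N = v - u := ⟨_, rfl⟩
  rw [← hN]
  obtain ⟨P, hP⟩ : ∃ P : ℝ, P = ∏ p ∈ pz z, (1 - (rho F c p : ℝ) / p) := ⟨_, rfl⟩
  have hh1 : hh F c z = (Vz z)⁻¹ * P := by rw [hP]; rfl
  have hP0 : 0 ≤ P := by
    rw [hP]; exact Pool.Agent.TH204.WR.prod_nonneg' F c z
  have hP1 : P ≤ 1 := by
    rw [hP]; exact Pool.Agent.TH204.WR.prod_le_one' F c z
  have hcl : |((((Icc 1 N).filter (fun t : ℕ => ∀ p ∈ pz z, ¬ (p : ℤ) ∣ F.eval ((m + u) + t) + c)).card : ℕ) : ℝ) - N * P| ≤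
      2 * (1 / 2 : ℝ) ^ k * (N * P) + (z : ℝ) ^ (C1 * k) := by
    rcases Nat.lt_or_ge N (z ^ (C1 * k)) with h1 | h1
    · have h2 : ((((Icc 1 N).filter (fun t : ℕ => ∀ p ∈ pz z, ¬ (p : ℤ) ∣ F.eval ((m + u) + t) + c)).card : ℕ) : ℝ) ≤ N := by
        have := card_filter_le (Icc 1 N) (fun t : ℕ => ∀ p ∈ pz z, ¬ (p : ℤ) ∣ F.eval ((m + u) + t) + c)
        rw [Nat.card_Icc] at this
        have h3 : ((Icc 1 N).filter (fun t : ℕ => ∀ p ∈ pz z, ¬ (p : ℤ) ∣ F.eval ((m + u) + t) + c)).card ≤ N := by omega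
        exact_mod_cast h3
      have h3 : (N : ℝ) ≤ (z : ℝ) ^ (C1 * k) := by exact_mod_cast h1.le
      have h4 : (0 : ℝ) ≤ N := Nat.cast_nonneg _
      have h5 : (N : ℝ) * P ≤ N := by nlinarith
      have h6 : 0 ≤ (N : ℝ) * P := mul_nonneg h4 hP0
      have h7 : 0 ≤ 2 * (1 / 2 : ℝ) ^ k * (N * P) := by positivity
      rw [abs_le]
      constructor
      · have : (0 : ℝ) ≤ ((((Icc 1 N).filter (fun t : ℕ => ∀ p ∈ pz z, ¬ (p : ℤ) ∣ F.eval ((m + u) + t) + c)).card : ℕ) : ℝ) :=
          Nat.cast_nonneg _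
        linarith
      · linarith
    · have h2 := h F c hF k hk z hz hadm N h1 (m + u)
      rw [← hP] at h2
      have h3 : (0 : ℝ) ≤ (z : ℝ) ^ (C1 * k) := by positivity
      refine le_trans ?_ (h2.trans (by linarith))
      apply le_of_eq
      congr 1
  have hcl' : |(Vz z)⁻¹ * ((((Icc 1 N).filter (fun t : ℕ => ∀ p ∈ pz z, ¬ (p : ℤ) ∣ F.eval ((m + u) + t) + c)).card : ℕ) : ℝ) -
      N * hh F c z| ≤ (Vz z)⁻¹ * (2 * (1 / 2 : ℝ) ^ k * (N * P) + (z : ℝ) ^ (C1 * k)) := by
    have e1 : (Vz z)⁻¹ * ((((Icc 1 N).filter (fun t : ℕ => ∀ p ∈ pz z, ¬ (p : ℤ) ∣ F.eval ((m + u) + t) + c)).card : ℕ) : ℝ) -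
        N * hh F c z = (Vz z)⁻¹ * (((((Icc 1 N).filter (fun t : ℕ => ∀ p ∈ pz z, ¬ (p : ℤ) ∣ F.eval ((m + u) + t) + c)).card : ℕ) : ℝ) - N * P) := by
      rw [hh1]; ring
    rw [e1, abs_mul, abs_of_pos (inv_pos.2 hV)]
    exact mul_le_mul_of_nonneg_left hcl (inv_nonneg.2 hV.le)
  refine hcl'.trans ?_
  rw [hh1]
  have e3 : (Vz z)⁻¹ * (2 * (1 / 2 : ℝ) ^ k * (N * P) + (z : ℝ) ^ (C1 * k)) =
      2 * (1 / 2 : ℝ) ^ k * ((Vz z)⁻¹ * P) * N + (Vz z)⁻¹ * (z : ℝ) ^ (C1 * k) := by ring
  rw [e3]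
  apply add_le_add le_rfl
  rw [pow_succ, mul_comm]
  exact mul_le_mul_of_nonneg_left (Pool.Agent.H373R2.T7.Vz_inv_le z hz1) (by positivity)

/-- the model with the weight, in a window -/
theorem model_w (d : ℕ) (hd : 1 ≤ d) : ∃ C1 y0 : ℕ, 1 ≤ C1 ∧ 2 ≤ y0 ∧ ∀ k : ℕ, C1 ≤ k → ∀ z : ℕ, y0 ≤ z → ∀ (F : ℤ[X]) (c m : ℤ),
    F.natDegree ≤ d → (∀ p ∈ pz z, rho F c p < p) → ∀ s : ℤ, (s = 1 ∨ s = -1) → ∀ H : ℕ,
    |∑ i ∈ (Ioc 0 H).filter (fun i : ℕ => 2 ≤ s * (vv F m i + c)),
        wt (s * (vv F m i + c)).toNat * (lamz z (s * (vv F m i + c)).toNat - hh F c z)| ≤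
      (2 * (1 / 2 : ℝ) ^ k) * hh F c z * ∑ i ∈ (Ioc 0 H).filter (fun i : ℕ => 2 ≤ s * (vv F m i + c)), wt (s * (vv F m i + c)).toNat +
        2 ^ d * ((z : ℝ) ^ (C1 * k + 1) * (3 / 2)) := by
  obtain ⟨C1, y0, hC1, hy0, h⟩ := model d hd
  refine ⟨C1, y0, hC1, hy0, fun k hk z hz F c m hF hadm s hs H => ?_⟩
  obtain ⟨β, hβ⟩ : ∃ β : ℕ → ℝ, β = fun i : ℕ => lamz z (vv F m i + c).natAbs - hh F c z := ⟨_, rfl⟩
  have hb : ∀ i j, i ≤ j → |∑ n ∈ Ioc i j, β n| ≤ (2 * (1 / 2 : ℝ) ^ k) * hh F c z * ((j : ℝ) - i) + (z : ℝ) ^ (C1 * k + 1) := by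
    intro i j hij
    rw [hβ]
    exact h k hk z hz F c m hF hadm i j hij
  have hR := hh_nonneg F c z (by omega)
  have hδ : 0 ≤ (2 * (1 / 2 : ℝ) ^ k) * hh F c z := by positivity
  have hR2 : (0 : ℝ) ≤ (z : ℝ) ^ (C1 * k + 1) := by positivity
  -- the sum in terms of `β`
  have e0 : ∀ (S : Finset ℕ), ∑ i ∈ S.filter (fun i : ℕ => 2 ≤ s * (vv F m i + c)),
        wt (s * (vv F m i + c)).toNat * (lamz z (s * (vv F m i + c)).toNat - hh F c z) =
      ∑ i ∈ S.filter (fun i : ℕ => 2 ≤ s * (vv F m i + c)), wt (s * (vv F m i + c)).toNat * β i := by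
    intro S
    refine sum_congr rfl fun i hi => ?_
    rw [mem_filter] at hi
    have e1 : (s * (vv F m i + c)).toNat = (vv F m i + c).natAbs := by
      rcases hs with h1 | h1
      · rw [h1, one_mul] at hi ⊢
        omega
      · rw [h1] at hi ⊢
        omega
    rw [hβ, e1]
  rw [e0]
  obtain ⟨err, herr⟩ : ∃ err : ℕ → ℕ → ℝ, err = fun u v =>
      |∑ i ∈ (Ioc u v).filter (fun i : ℕ => 2 ≤ s * (vv F m i + c)), wt (s * (vv F m i + c)).toNat * β i| -
        (2 * (1 / 2 : ℝ) ^ k) * hh F c z * ∑ i ∈ (Ioc u v).filter (fun i : ℕ => 2 ≤ s * (vv F m i + c)), wt (s * (vv F m i + c)).toNat :=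
    ⟨_, rfl⟩
  have hsub : ∀ u v w, u ≤ v → v ≤ w → err u w ≤ err u v + err v w := by
    intro u v w huv hvw
    have hsplit : (Ioc u w).filter (fun i : ℕ => 2 ≤ s * (vv F m i + c)) =
        (Ioc u v).filter (fun i : ℕ => 2 ≤ s * (vv F m i + c)) ∪ (Ioc v w).filter (fun i : ℕ => 2 ≤ s * (vv F m i + c)) := by
      rw [← filter_union, Ioc_union_Ioc_eq_Ioc huv hvw]
    have hdis : Disjoint ((Ioc u v).filter (fun i : ℕ => 2 ≤ s * (vv F m i + c))) ((Ioc v w).filter (fun i : ℕ => 2 ≤ s * (vv F m i + c))) := by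
      apply disjoint_filter_filter
      rw [disjoint_left]
      intro i h1 h2
      rw [mem_Ioc] at h1 h2
      omega
    rw [herr]
    simp only
    rw [hsplit, sum_union hdis, sum_union hdis]
    have := abs_add_le (∑ i ∈ (Ioc u v).filter (fun i : ℕ => 2 ≤ s * (vv F m i + c)), wt (s * (vv F m i + c)).toNat * β i)
      (∑ i ∈ (Ioc v w).filter (fun i : ℕ => 2 ≤ s * (vv F m i + c)), wt (s * (vv F m i + c)).toNat * β i)
    linarith
  obtain ⟨D, hD⟩ : ∃ D : ℤ[X], D = taylor 1 F - F := ⟨_, rfl⟩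
  have hDe : D.natDegree ≤ d := by
    rw [hD]
    refine (Polynomial.natDegree_sub_le _ _).trans ?_
    rw [Polynomial.natDegree_taylor]
    exact max_le hF hF
  have hDv : ∀ i : ℕ, vv D m i = vv F m (i + 1) - vv F m i := by
    intro i
    unfold vv
    rw [hD, Polynomial.eval_sub, Polynomial.taylor_eval]
    push_cast
    rw [add_assoc]
  have key := pieces err hsub m d D hDe ((z : ℝ) ^ (C1 * k + 1) * (3 / 2)) (by
    intro u v huv hsg
    rw [herr]
    simp only
    rcases hsg with hsg | hsg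
    · have hd' : ∀ i, u < i → i < v → vv F m i ≤ vv F m (i + 1) := by
        intro i h1 h2
        have := hsg i h1 h2
        rw [hDv] at this
        linarith
      rcases hs with h1 | h1
      · have := seg_mono (fun i => s * (vv F m i + c)) β u v (by
          intro i h2 h3
          have := hd' i h2 h3
          simp only [h1, one_mul]
          linarith) _ _ hδ hR2 (fun i j _ h3 _ => hb i j h3)
        linarith
      · have := seg_anti (fun i => s * (vv F m i + c)) β u v (by
          intro i h2 h3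
          have := hd' i h2 h3
          simp only [h1]
          linarith) _ _ hδ hR2 (fun i j _ h3 _ => hb i j h3)
        linarith
    · have hd' : ∀ i, u < i → i < v → vv F m (i + 1) ≤ vv F m i := by
        intro i h1 h2
        have := hsg i h1 h2
        rw [hDv] at this
        linarith
      rcases hs with h1 | h1
      · have := seg_anti (fun i => s * (vv F m i + c)) β u v (by
          intro i h2 h3
          have := hd' i h2 h3
          simp only [h1, one_mul]
          linarith) _ _ hδ hR2 (fun i j _ h3 _ => hb i j h3)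
        linarith
      · have := seg_mono (fun i => s * (vv F m i + c)) β u v (by
          intro i h2 h3
          have := hd' i h2 h3
          simp only [h1]
          linarith) _ _ hδ hR2 (fun i j _ h3 _ => hb i j h3)
        linarith) 0 H (Nat.zero_le _)
  rw [herr] at key
  simp only at key
  linarith

/-- sums over the window -/
lemma sum_win (F : ℤ[X]) (m : ℤ) (H : ℕ) (g : ℤ → ℝ) :
    ∑ j ∈ range H, g (F.eval (m + 1 + j)) = ∑ i ∈ Ioc 0 H, g (vv F m i) := by
  refine sum_nbij' (fun j => j + 1) (fun i => i - 1) ?_ ?_ ?_ ?_ ?_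
  · intro j hj
    rw [mem_range] at hj; rw [mem_Ioc]; omega
  · intro i hi
    rw [mem_Ioc] at hi; rw [mem_range]; omega
  · intro j _
    omega
  · intro i hi
    rw [mem_Ioc] at hi; omega
  · intro j _
    unfold vv
    push_cast
    rw [add_assoc, add_comm (1 : ℤ) (j : ℤ)]

end Run7.h373.QD
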