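import Pool.Agent.Run7.h373.QW.Fin
import Pool.Agent.Run7.h373.QD.MomB
import Pool.Agent.Run7.h373.QD.Tail
import Pool.Agent.Run7.h373.QD.Siv

/-!
# Project QD: windows of length `X^(1/(3d))` for polynomials of degree `d`
-/

set_option autoImplicit false
set_option maxHeartbeats 1000000

namespace Run7.h373.QD

open Finset Filter Topology
open Polynomial (natDegree leadingCoeff)
open scoped Polynomial
open Pool.Agent.H373R2.T7 (pz Vz lamz mem_pz Vz_ge ev_log' Vz_inv_small choice Vz_le_one)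
open Pool.Agent.TH892.SW (wt wt_le wt_nonneg ff ffn)
open Pool.Agent.Y868.TB (evt_root)
open Pool.Agent.TH204.WR (rho hh hh_nonneg hh_close V_low)
open Run7.h385.CR (ev_lge)

/-- the choice of the level of the sieve -/
lemma pickn (E V C1 n : ℕ) (hn : 1 ≤ n) : ∃ N0 : ℕ, ∀ N : ℕ, N0 ≤ N → ∀ z : ℕ, (z : ℝ) ≤ Real.log N ^ E →
    ∃ k : ℕ, C1 ≤ k ∧ (1 / 2 : ℝ) ^ k ≤ 1 / Real.log N ^ V ∧ (z : ℝ) ^ (C1 * k + 1) ≤ (N : ℝ) ^ (1 / (n : ℝ)) := by
  obtain ⟨n0, h0⟩ := choice 0 E (V + 1) (n * (2 * C1 + 1))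
  obtain ⟨n1, h1⟩ := ev_lge (Real.exp (C1 + 1))
  refine ⟨n0 + n1 + 1, fun N hN z hz => ?_⟩
  obtain ⟨r, hr1, hr2, -⟩ := h0 N (by omega) z hz
  have hL := h1 N (by omega)
  set L := Real.log N with hLd
  have hexp : (1 : ℝ) ≤ Real.exp (C1 + 1) := Real.one_le_exp (by positivity)
  have hL1 : 1 ≤ L := by linarith
  have hL0 : 0 < L := by linarith
  have hN0 : (0 : ℝ) ≤ N := Nat.cast_nonneg _
  have hn0 : (n : ℝ) ≠ 0 := by
    have : (1 : ℝ) ≤ n := by exact_mod_cast hn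
    linarith
  simp only [Nat.cast_zero, zero_mul, mul_zero, zero_sub] at hr1
  have hrL : Real.exp (-r) ≤ 1 / L := by
    refine hr1.trans (one_div_le_one_div_of_le hL0 (le_self_pow₀ hL1 (by omega)))
  have hrC : (C1 : ℝ) + 1 ≤ r := by
    have h2 : Real.exp (-r) ≤ Real.exp (-(C1 + 1)) := by
      refine hrL.trans ?_
      rw [Real.exp_neg, one_div]
      exact inv_anti₀ (by positivity) hL
    have := Real.exp_le_exp.1 h2
    linarith
  have hrC' : C1 + 1 ≤ r := by exact_mod_cast hrC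
  refine ⟨2 * r, by omega, ?_, ?_⟩
  · have h2 : (1 / 2 : ℝ) ^ (2 * r) ≤ Real.exp (-r) := by
      have h3 : (1 / 4 : ℝ) ≤ Real.exp (-1) := by
        rw [Real.exp_neg, one_div]
        apply inv_anti₀ (Real.exp_pos 1)
        have := Real.exp_one_lt_d9
        linarith
      calc (1 / 2 : ℝ) ^ (2 * r) = (1 / 4 : ℝ) ^ r := by rw [pow_mul]; norm_num
        _ ≤ Real.exp (-1) ^ r := pow_le_pow_left₀ (by norm_num) h3 r
        _ = Real.exp (-r) := by rw [← Real.exp_nat_mul]; ring_nf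
    refine h2.trans (hr1.trans ?_)
    apply one_div_le_one_div_of_le (by positivity)
    exact pow_le_pow_right₀ hL1 (by omega)
  · have h2 : ((z : ℝ) ^ (C1 * (2 * r) + 1)) ^ n ≤ N := by
      refine le_trans ?_ hr2
      have hz1 : (1 : ℝ) ≤ (z : ℝ) + 1 := by
        have : (0 : ℝ) ≤ z := Nat.cast_nonneg z
        linarith
      calc ((z : ℝ) ^ (C1 * (2 * r) + 1)) ^ n = (z : ℝ) ^ ((C1 * (2 * r) + 1) * n) := by rw [← pow_mul]
        _ ≤ ((z : ℝ) + 1) ^ ((C1 * (2 * r) + 1) * n) := pow_le_pow_left₀ (Nat.cast_nonneg _) (by linarith) _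
        _ ≤ ((z : ℝ) + 1) ^ (r * (n * (2 * C1 + 1))) := by
            apply pow_le_pow_right₀ hz1
            have h5 : C1 * (2 * r) + 1 ≤ r * (2 * C1 + 1) := by nlinarith
            calc (C1 * (2 * r) + 1) * n ≤ (r * (2 * C1 + 1)) * n := Nat.mul_le_mul_right n h5
              _ = r * (n * (2 * C1 + 1)) := by ring
        _ = _ := by rw [pow_mul]
    have h3 : (z : ℝ) ^ (C1 * (2 * r) + 1) = (((z : ℝ) ^ (C1 * (2 * r) + 1)) ^ n) ^ (1 / (n : ℝ)) := by
      rw [← Real.rpow_natCast (((z : ℝ) ^ (C1 * (2 * r) + 1))) n, ← Real.rpow_mul (by positivity),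
        mul_one_div_cancel hn0, Real.rpow_one]
    rw [h3]
    exact Real.rpow_le_rpow (by positivity) h2 (by positivity)

/-- the number of the primes `s (F(n) + c)` in a window -/
def pC (s : ℤ) (F : ℤ[X]) (c m : ℤ) (H : ℕ) : ℕ := #((Ioc 0 H).filter (fun i : ℕ => (s * (vv F m i + c)).toNat.Prime))

/-- the sum of `1 / log (s (F(n) + c))` over the `n` of the window with `s (F(n) + c) ≥ 2` -/
noncomputable def lS (s : ℤ) (F : ℤ[X]) (c m : ℤ) (H : ℕ) : ℝ :=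
  ∑ i ∈ (Ioc 0 H).filter (fun i : ℕ => 2 ≤ s * (vv F m i + c)), wt (s * (vv F m i + c)).toNat

lemma pC_eq (s : ℤ) (F : ℤ[X]) (c m : ℤ) (H z : ℕ) (R : ℝ) : (pC s F c m H : ℝ) - R * lS s F c m H =
    ∑ i ∈ Ioc 0 H, ff z (s * (vv F m i + c)) +
      ∑ i ∈ (Ioc 0 H).filter (fun i : ℕ => 2 ≤ s * (vv F m i + c)),
        wt (s * (vv F m i + c)).toNat * (lamz z (s * (vv F m i + c)).toNat - R) := by
  have h1 : (pC s F c m H : ℝ) = ∑ i ∈ (Ioc 0 H).filter (fun i : ℕ => 2 ≤ s * (vv F m i + c)),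
      (if (s * (vv F m i + c)).toNat.Prime then (1 : ℝ) else 0) := by
    unfold pC
    rw [card_filter]
    push_cast
    rw [sum_filter]
    refine sum_congr rfl fun n _ => ?_
    by_cases h : 2 ≤ s * (vv F m n + c)
    · rw [if_pos h]
    · rw [if_neg h, if_neg]
      intro hp
      have := hp.two_le
      omega
  have h2 : ∑ i ∈ Ioc 0 H, ff z (s * (vv F m i + c)) = ∑ i ∈ (Ioc 0 H).filter (fun i : ℕ => 2 ≤ s * (vv F m i + c)),
      ffn z (s * (vv F m i + c)).toNat := by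
    rw [sum_filter]
    exact sum_congr rfl fun n _ => rfl
  rw [h1, h2]
  unfold lS
  rw [mul_sum, ← sum_sub_distrib, ← sum_add_distrib]
  refine sum_congr rfl fun n _ => ?_
  unfold ffn
  ring

lemma lS_nonneg (s : ℤ) (F : ℤ[X]) (c m : ℤ) (H : ℕ) : 0 ≤ lS s F c m H := sum_nonneg fun _ _ => wt_nonneg _

lemma lS_le (s : ℤ) (F : ℤ[X]) (c m : ℤ) (H : ℕ) : lS s F c m H ≤ 3 / 2 * H := by
  unfold lS
  calc ∑ i ∈ (Ioc 0 H).filter (fun i : ℕ => 2 ≤ s * (vv F m i + c)), wt (s * (vv F m i + c)).toNat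
      ≤ ∑ i ∈ (Ioc 0 H).filter (fun i : ℕ => 2 ≤ s * (vv F m i + c)), (3 / 2 : ℝ) := by
        refine sum_le_sum fun n hn => ?_
        rw [mem_filter] at hn
        exact wt_le (by omega)
    _ = #((Ioc 0 H).filter (fun i : ℕ => 2 ≤ s * (vv F m i + c))) * (3 / 2 : ℝ) := by rw [sum_const, nsmul_eq_mul]
    _ ≤ (H : ℝ) * (3 / 2 : ℝ) := by
        apply mul_le_mul_of_nonneg_right _ (by norm_num)
        have h1 := card_filter_le (Ioc 0 H) (fun i : ℕ => 2 ≤ s * (vv F m i + c))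
        rw [Nat.card_Ioc] at h1
        exact_mod_cast h1
    _ = _ := by ring

/-- lower bound for the product -/
lemma hh_low (F : ℤ[X]) (c : ℤ) (z d : ℕ) (hd : 1 ≤ d) (hF : F.natDegree ≤ d) (hadm : ∀ p ∈ pz z, rho F c p < p) (L : ℝ)
    (hL : (2 * (d : ℝ)) ^ (2 * d) ≤ L) (hV : (Vz z)⁻¹ ≤ L) : 1 / L ^ (2 * d + 1) ≤ hh F c z := by
  have h1 := V_low F c z d hd hF hadm
  have hV0 : 0 < Vz z := Pool.Agent.H373R2.T7.Vz_pos z
  have hd1 : (1 : ℝ) ≤ d := by exact_mod_cast hd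
  have hL1 : 1 ≤ L := by
    refine le_trans ?_ hL
    exact one_le_pow₀ (by linarith)
  have hL0 : 0 < L := by linarith
  have hVl : 1 / L ≤ Vz z := by
    rw [one_div]
    exact inv_le_of_inv_le₀ hV0 hV
  have hVi : 1 ≤ (Vz z)⁻¹ := one_le_inv₀ hV0 |>.2 (Vz_le_one z)
  have h2 : 1 / L ≤ (1 / (2 * (d : ℝ))) ^ (2 * d) := by
    rw [one_div_pow]
    exact one_div_le_one_div_of_le (by positivity) hL
  unfold hh
  calc 1 / L ^ (2 * d + 1) = 1 * ((1 / L) * (1 / L) ^ (2 * d)) := by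
        rw [one_mul, ← pow_succ', one_div_pow]
    _ ≤ (Vz z)⁻¹ * ((1 / (2 * (d : ℝ))) ^ (2 * d) * Vz z ^ (2 * d)) := by
        apply mul_le_mul hVi _ (by positivity) (by positivity)
        apply mul_le_mul h2 _ (by positivity) (by positivity)
        exact pow_le_pow_left₀ (by positivity) hVl _
    _ ≤ _ := mul_le_mul_of_nonneg_left h1 (by positivity)

/-- **the theorem** -/
theorem final (d : ℕ) (hd : 1 ≤ d) (U C : ℕ) : ∃ B X₀ : ℕ, ∀ X : ℕ, X₀ ≤ X → ∀ F : ℤ[X], F.natDegree = d →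
    |(F.leadingCoeff : ℝ)| ≤ Real.log X ^ C → ∀ (m : ℤ) (H : ℕ), (X : ℝ) ^ (1 / (3 * (d : ℝ))) * Real.log X ^ B ≤ H →
    (∀ i ∈ Ioc 0 H, |((vv F m i : ℤ) : ℝ)| ≤ X * Real.log X ^ C) →
    ∃ Bad ⊆ Icc (-(X : ℤ)) X, (#Bad : ℝ) ≤ X / Real.log X ^ U ∧ ∀ c ∈ Icc (-(X : ℤ)) X, c ∉ Bad →
      (∀ p : ℕ, p.Prime → rho F c p < p) → ∀ z : ℕ, Real.log X ^ B ≤ z → z ^ 3 ≤ X → 0 < hh F c z ∧
        ∀ s : ℤ, (s = 1 ∨ s = -1) →
          |(pC s F c m H : ℝ) - hh F c z * lS s F c m H| ≤ hh F c z * H / Real.log X ^ U := by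
  classical
  obtain ⟨E1, hE1⟩ := t1m Run7.h373.QW.FI d hd (3 * U + 4 * d + 10) C
  obtain ⟨E2, hE2⟩ := tail_all d hd C (U + 3) (U + 2)
  obtain ⟨E, hE⟩ : ∃ E, E = E1 + E2 + (C + U + 6) := ⟨_, rfl⟩
  obtain ⟨B, X0, h0⟩ := hE1 E (by omega)
  obtain ⟨X1, h1⟩ := hE2 E (by omega)
  obtain ⟨C1, y0, hC1, hy0, hmod⟩ := model_w d hd
  obtain ⟨X2, h2⟩ := pickn E (U + 3) C1 (6 * d) (by omega)
  obtain ⟨X3, h3⟩ := Vz_inv_small E
  obtain ⟨X4, h4⟩ := ev_lge (y0 + 100 + (2 * (d : ℝ)) ^ (2 * d) + 8 * (d : ℝ) ^ 2 + 4 * d)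
  obtain ⟨X5, h5⟩ := evt_root (6 * d) (U + 2 * d + 4) (by omega) (2 ^ d * (3 / 2))
  refine ⟨B + E, X0 + X1 + X2 + X3 + X4 + X5 + 1, fun X hX F hF hFl m H hH1 hH2 => ?_⟩
  have g4 := h4 X (by omega)
  have g5 := h5 X (by omega)
  obtain ⟨Bad0, k1, k2, k3⟩ := h1 X (by omega) F hF hFl
  have hd1 : (1 : ℝ) ≤ d := by exact_mod_cast hd
  have hF0 : F ≠ 0 := by
    rintro rfl
    rw [Polynomial.natDegree_zero] at hF
    omega
  have hl0 : F.leadingCoeff ≠ 0 := Polynomial.leadingCoeff_ne_zero.2 hF0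
  set L := Real.log X with hLd
  have hy0r : (0 : ℝ) ≤ y0 := Nat.cast_nonneg _
  have hdd0 : 0 ≤ (2 * (d : ℝ)) ^ (2 * d) := by positivity
  have hdd1 : 0 ≤ 8 * (d : ℝ) ^ 2 := by positivity
  have hL100 : 100 ≤ L := by linarith
  have hLdd : (2 * (d : ℝ)) ^ (2 * d) ≤ L := by linarith
  have hL0 : 0 < L := by linarith
  have hL1 : 1 ≤ L := by linarith
  have hLp : ∀ n : ℕ, 0 < L ^ n := fun n => by positivity
  have hLp1 : ∀ n : ℕ, 1 ≤ L ^ n := fun n => one_le_pow₀ hL1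
  have hLmono : ∀ {i j : ℕ}, i ≤ j → L ^ i ≤ L ^ j := fun h => pow_le_pow_right₀ hL1 h
  have hX1 : (1 : ℝ) ≤ X := by exact_mod_cast (by omega : 1 ≤ X)
  have hX0 : (0 : ℝ) < X := by linarith
  -- `y`
  obtain ⟨y, hy⟩ : ∃ y : ℕ, y = ⌊L ^ E⌋₊ := ⟨_, rfl⟩
  rw [← hy] at k3
  have hy2 : (y : ℝ) ≤ L ^ E := by rw [hy]; exact Nat.floor_le (hLp E).le
  have hyP : ∀ n : ℕ, n + 1 ≤ E → L ^ n ≤ y := by
    intro n hn
    have h6 := Nat.lt_floor_add_one (L ^ E)
    rw [← hy] at h6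
    have h7 : L ^ n * L ≤ L ^ E := by
      rw [← pow_succ]; exact hLmono hn
    have := hLp1 n
    nlinarith
  have hy3 : L ≤ y := by
    have := hyP 1 (by omega)
    rwa [pow_one] at this
  have hyC : L ^ C ≤ y := hyP C (by omega)
  have hyy : y0 ≤ y := by
    have : (y0 : ℝ) ≤ y := by linarith
    exact_mod_cast this
  have hy2' : 2 ≤ y := by omega
  have hylc : F.leadingCoeff.natAbs ≤ y := by
    have h2 : ((F.leadingCoeff.natAbs : ℕ) : ℝ) = |(F.leadingCoeff : ℝ)| := by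
      rw [Nat.cast_natAbs, Int.cast_abs]
    have : ((F.leadingCoeff.natAbs : ℕ) : ℝ) ≤ y := by rw [h2]; exact hFl.trans hyC
    exact_mod_cast this
  have hVi : (Vz y)⁻¹ ≤ L := h3 X (by omega) y (by omega) hy2
  have hV0 : 0 < Vz y := Pool.Agent.H373R2.T7.Vz_pos y
  obtain ⟨k, hk1, hk2, hk3⟩ := h2 X (by omega) y hy2
  rw [← hLd] at hk2
  -- `H`
  have h3d : 0 ≤ 1 / (3 * (d : ℝ)) := by positivity
  have hX3 : (1 : ℝ) ≤ (X : ℝ) ^ (1 / (3 * (d : ℝ))) := Real.one_le_rpow hX1 h3d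
  have hH1' : (X : ℝ) ^ (1 / (3 * (d : ℝ))) ≤ H := by
    refine le_trans ?_ hH1
    exact le_mul_of_one_le_right (by positivity) (hLp1 (B + E))
  have hH1'' : (X : ℝ) ^ (1 / (3 * (d : ℝ))) * L ^ B ≤ H := by
    refine le_trans ?_ hH1
    exact mul_le_mul_of_nonneg_left (hLmono (by omega)) (by positivity)
  have hH0 : (0 : ℝ) < H := by linarith
  have hsmall : 2 ^ d * ((y : ℝ) ^ (C1 * k + 1) * (3 / 2)) ≤ H / L ^ (U + 2 * d + 4) := by
    rw [le_div_iff₀ (hLp _)]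
    calc 2 ^ d * ((y : ℝ) ^ (C1 * k + 1) * (3 / 2)) * L ^ (U + 2 * d + 4) =
          (y : ℝ) ^ (C1 * k + 1) * (2 ^ d * (3 / 2) * L ^ (U + 2 * d + 4)) := by ring
      _ ≤ (X : ℝ) ^ (1 / ((6 * d : ℕ) : ℝ)) * (X : ℝ) ^ (1 / ((6 * d : ℕ) : ℝ)) := by gcongr
      _ = (X : ℝ) ^ (1 / (3 * (d : ℝ))) := by
          rw [← Real.rpow_add hX0]
          congr 1
          push_cast
          field_simp
          norm_num
      _ ≤ H := hH1'
  -- the two other exceptional sets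
  obtain ⟨T, hT⟩ : ∃ T : ℤ → ℤ → ℝ, T = fun s c => ∑ i ∈ Ioc 0 H, ff y (s * (vv F m i + c)) := ⟨_, rfl⟩
  have hmom : ∀ s : ℤ, (s = 1 ∨ s = -1) → ∑ c ∈ Icc (-(X : ℤ)) X, T s c ^ 2 ≤ X * (H : ℝ) ^ 2 / L ^ (3 * U + 4 * d + 10) := by
    intro s hs
    have h6 := h0 X (by omega) F hF hFl m H hH1'' (by
      intro j hj
      have := hH2 (j + 1) (by rw [mem_Ioc]; omega)
      have e1 : vv F m (j + 1) = pv F m j := by
        unfold vv pv
        push_cast
        rw [add_assoc, add_comm (1 : ℤ) (j : ℤ)]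
      rw [e1] at this
      exact this) s hs
    rw [hT]
    simp only
    rw [hy]
    refine le_trans (le_of_eq ?_) h6
    refine sum_congr rfl fun c _ => ?_
    have := sum_win F m H (fun v => ff ⌊L ^ E⌋₊ (s * (v + c)))
    rw [← this]
    rfl
  have hbad : ∀ s : ℤ, (s = 1 ∨ s = -1) →
      (#((Icc (-(X : ℤ)) X).filter (fun c => H / L ^ (U + 2 * d + 4) < |T s c|)) : ℝ) ≤ X / L ^ (U + 2) := by
    intro s hs
    have h6 := hmom s hs
    have h7 : (#((Icc (-(X : ℤ)) X).filter (fun c => H / L ^ (U + 2 * d + 4) < |T s c|)) : ℝ) * (H / L ^ (U + 2 * d + 4)) ^ 2 ≤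
        ∑ c ∈ Icc (-(X : ℤ)) X, T s c ^ 2 := by
      calc (#((Icc (-(X : ℤ)) X).filter (fun c => H / L ^ (U + 2 * d + 4) < |T s c|)) : ℝ) * (H / L ^ (U + 2 * d + 4)) ^ 2
          = ∑ c ∈ (Icc (-(X : ℤ)) X).filter (fun c => H / L ^ (U + 2 * d + 4) < |T s c|), ((H : ℝ) / L ^ (U + 2 * d + 4)) ^ 2 := by
            rw [sum_const, nsmul_eq_mul]
        _ ≤ ∑ c ∈ (Icc (-(X : ℤ)) X).filter (fun c => H / L ^ (U + 2 * d + 4) < |T s c|), T s c ^ 2 := by
            refine sum_le_sum fun c hc => ?_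
            rw [mem_filter] at hc
            rw [← sq_abs (T s c)]
            exact pow_le_pow_left₀ (by positivity) hc.2.le 2
        _ ≤ _ := sum_le_sum_of_subset_of_nonneg (filter_subset _ _) fun c _ _ => sq_nonneg _
    have h8 := h7.trans h6
    have h9 : X * (H : ℝ) ^ 2 / L ^ (3 * U + 4 * d + 10) = X / L ^ (U + 2) * (H / L ^ (U + 2 * d + 4)) ^ 2 := by
      rw [show 3 * U + 4 * d + 10 = (U + 2) + (U + 2 * d + 4) * 2 by ring, pow_add, pow_mul]
      field_simp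
    rw [h9] at h8
    exact le_of_mul_le_mul_right h8 (by positivity)
  refine ⟨Bad0 ∪ ((Icc (-(X : ℤ)) X).filter (fun c => H / L ^ (U + 2 * d + 4) < |T 1 c|) ∪
    (Icc (-(X : ℤ)) X).filter (fun c => H / L ^ (U + 2 * d + 4) < |T (-1) c|)),
    union_subset k1 (union_subset (filter_subset _ _) (filter_subset _ _)), ?_, ?_⟩
  · have e1 := card_union_le Bad0 ((Icc (-(X : ℤ)) X).filter (fun c => H / L ^ (U + 2 * d + 4) < |T 1 c|) ∪
      (Icc (-(X : ℤ)) X).filter (fun c => H / L ^ (U + 2 * d + 4) < |T (-1) c|))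
    have e2 := card_union_le ((Icc (-(X : ℤ)) X).filter (fun c => H / L ^ (U + 2 * d + 4) < |T 1 c|))
      ((Icc (-(X : ℤ)) X).filter (fun c => H / L ^ (U + 2 * d + 4) < |T (-1) c|))
    have e3 : (#(Bad0 ∪ ((Icc (-(X : ℤ)) X).filter (fun c => H / L ^ (U + 2 * d + 4) < |T 1 c|) ∪
      (Icc (-(X : ℤ)) X).filter (fun c => H / L ^ (U + 2 * d + 4) < |T (-1) c|))) : ℝ) ≤ #Bad0 +
        (#((Icc (-(X : ℤ)) X).filter (fun c => H / L ^ (U + 2 * d + 4) < |T 1 c|)) +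
        #((Icc (-(X : ℤ)) X).filter (fun c => H / L ^ (U + 2 * d + 4) < |T (-1) c|))) := by
      exact_mod_cast e1.trans (Nat.add_le_add_left e2 _)
    have e4 := hbad 1 (Or.inl rfl)
    have e5 := hbad (-1) (Or.inr rfl)
    have e6 : X / L ^ U = X / L ^ (U + 2) * L ^ 2 := by
      rw [pow_add]; field_simp
    have e7 : 0 ≤ X / L ^ (U + 2) := by positivity
    have e8 : (3 : ℝ) ≤ L ^ 2 := by nlinarith
    rw [e6]
    nlinarith
  · intro c hc hcB hadm z hz1 hz2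
    rw [mem_union, mem_union, not_or, not_or] at hcB
    obtain ⟨f1, f2, f3⟩ := hcB
    have hadm' : ∀ p ∈ pz y, rho F c p < p := fun p hp => hadm p (mem_pz.1 hp).2
    have hyz : y ≤ z := by
      have : (y : ℝ) ≤ z := by
        refine hy2.trans (le_trans ?_ hz1)
        exact hLmono (by omega)
      exact_mod_cast this
    have htl := k3 c hc f1 z hyz hz2
    -- the two products
    obtain ⟨κ, hκ⟩ : ∃ κ : ℝ, κ = 1 / L ^ (U + 3) := ⟨_, rfl⟩
    have hκ0 : 0 < κ := by rw [hκ]; exact one_div_pos.2 (hLp _)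
    have hκ1 : κ ≤ 1 / 100 := by
      rw [hκ]
      apply one_div_le_one_div_of_le (by norm_num)
      have := hLmono (show 1 ≤ U + 3 by omega)
      rw [pow_one] at this
      linarith
    rw [← hκ] at htl
    have hy8 : 8 * (F.natDegree : ℝ) ^ 2 ≤ κ * y := by
      have h6 := hyP (U + 4) (by omega)
      have h7 : κ * L ^ (U + 4) = L := by
        rw [hκ, show U + 4 = (U + 3) + 1 by ring, pow_succ L (U + 3)]
        have := (hLp (U + 3)).ne'
        field_simp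
      have h8 : κ * L ^ (U + 4) ≤ κ * y := mul_le_mul_of_nonneg_left h6 hκ0.le
      rw [hF]
      linarith
    have hy4 : 4 * F.natDegree ≤ y := by
      have : (4 : ℝ) * d ≤ y := by linarith
      rw [hF]
      exact_mod_cast this
    have hcl := hh_close F c y z (by omega) hylc hl0 hyz κ hy8 hy4 (by linarith) htl
    have hR0 := hh_low F c y d hd hF.le hadm' L hLdd hVi
    set R := hh F c y with hR
    set M := hh F c z with hM
    have hRpos : 0 < R := lt_of_lt_of_le (one_div_pos.2 (hLp _)) hR0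
    have hMR := abs_le.1 hcl
    have hRM : R ≤ 2 * M := by nlinarith [hMR.1]
    have hM0 : 0 < M := by linarith
    refine ⟨hM0, fun s hs => ?_⟩
    have hTs : |T s c| ≤ H / L ^ (U + 2 * d + 4) := by
      rcases hs with h | h
      · rw [h]
        rw [mem_filter, not_and] at f2
        exact not_lt.1 (f2 hc)
      · rw [h]
        rw [mem_filter, not_and] at f3
        exact not_lt.1 (f3 hc)
    have hmd := hmod k hk1 y hyy F c m hF.le hadm' s hs H
    rw [← hR] at hmd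
    have hW0 : 0 ≤ lS s F c m H := lS_nonneg _ _ _ _ _
    have hW1 : lS s F c m H ≤ 3 / 2 * H := lS_le s F c m H
    have hWe : ∑ i ∈ (Ioc 0 H).filter (fun i : ℕ => 2 ≤ s * (vv F m i + c)), wt (s * (vv F m i + c)).toNat = lS s F c m H := rfl
    rw [hWe] at hmd
    set W := lS s F c m H with hW
    have hML : 1 ≤ 2 * M * L ^ (2 * d + 1) := by
      have h6 : 1 ≤ R * L ^ (2 * d + 1) := by
        rw [div_le_iff₀ (hLp _)] at hR0
        exact hR0
      have h7 : R * L ^ (2 * d + 1) ≤ 2 * M * L ^ (2 * d + 1) := mul_le_mul_of_nonneg_right hRM (hLp _).le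
      linarith
    -- the pieces
    have e1 := pC_eq s F c m H y R
    rw [← hW] at e1
    have e2 : (pC s F c m H : ℝ) - M * W = ((pC s F c m H : ℝ) - R * W) + (R - M) * W := by ring
    have hunit : H / L ^ (U + 2 * d + 4) ≤ 2 * (M * H / L ^ (U + 3)) := by
      have h6 : H / L ^ (U + 2 * d + 4) = 1 * (H / L ^ (U + 2 * d + 4)) := by ring
      rw [h6]
      calc 1 * (H / L ^ (U + 2 * d + 4)) ≤ (2 * M * L ^ (2 * d + 1)) * (H / L ^ (U + 2 * d + 4)) := by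
            apply mul_le_mul_of_nonneg_right hML
            positivity
        _ = 2 * (M * H / L ^ (U + 3)) := by
            rw [show U + 2 * d + 4 = (U + 3) + (2 * d + 1) by ring, pow_add L (U + 3) (2 * d + 1)]
            field_simp
    have hp1 : |∑ i ∈ Ioc 0 H, ff y (s * (vv F m i + c))| ≤ 2 * (M * H / L ^ (U + 3)) := by
      refine le_trans ?_ (hTs.trans hunit)
      rw [hT]
    have hp2 : (2 * (1 / 2 : ℝ) ^ k) * R * W + 2 ^ d * ((y : ℝ) ^ (C1 * k + 1) * (3 / 2)) ≤ 8 * (M * H / L ^ (U + 3)) := by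
      have h6 : (2 * (1 / 2 : ℝ) ^ k) * R * W ≤ (2 * (1 / L ^ (U + 3))) * (2 * M) * (3 / 2 * H) := by gcongr
      have h7 : (2 * (1 / L ^ (U + 3))) * (2 * M) * (3 / 2 * H) = 6 * (M * H / L ^ (U + 3)) := by
        field_simp
        norm_num
      linarith [hsmall.trans hunit]
    have hp3 : |(R - M) * W| ≤ 12 * (M * H / L ^ (U + 3)) := by
      rw [abs_mul, abs_of_nonneg hW0, abs_sub_comm]
      calc |M - R| * W ≤ (4 * κ * R) * (3 / 2 * H) := by gcongr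
        _ ≤ (4 * κ * (2 * M)) * (3 / 2 * H) := by gcongr
        _ = _ := by rw [hκ]; ring
    have htot : |(pC s F c m H : ℝ) - M * W| ≤ 22 * (M * H / L ^ (U + 3)) := by
      rw [e2, e1]
      refine (abs_add_le _ _).trans ?_
      have h6 := abs_add_le (∑ i ∈ Ioc 0 H, ff y (s * (vv F m i + c)))
        (∑ i ∈ (Ioc 0 H).filter (fun i : ℕ => 2 ≤ s * (vv F m i + c)),
          wt (s * (vv F m i + c)).toNat * (lamz y (s * (vv F m i + c)).toNat - R))
      linarith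
    refine htot.trans ?_
    have e6 : M * H / L ^ U = M * H / L ^ (U + 3) * L ^ 3 := by
      rw [pow_add]; field_simp
    rw [e6]
    have e7 : 0 ≤ M * H / L ^ (U + 3) := by positivity
    have e8 : (22 : ℝ) ≤ L ^ 3 := by
      have : L ≤ L ^ 3 := le_self_pow₀ hL1 (by norm_num)
      linarith
    nlinarith

end Run7.h373.QD
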