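import Pool.Agent.Run7.h385.CR.MomC
import Pool.Agent.H373R2.NB.Weyl
import Pool.Agent.H807R2.Dav1

/-!
# Project QD: the second moment over the constant term, for polynomials of any degree
-/

set_option autoImplicit false
set_option maxHeartbeats 4000000

namespace Run7.h373.QD

open Finset MeasureTheory
open Pool.Agent.H469R2.NK (e norm_e e_add conj_e e_zero)
open Pool.Agent.TH892.SW (ff sq_ff)
open Pool.Agent.H373R2.T7 (ev_log')
open Pool.Agent.H373R2.NB (Ph Ph_poly IW IW_all)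
open Run7.h385.CR (FF FF_cont FF_sq one_arc bess e_cont ev_lge intg_sum)
open Run7.h757.CR (S_FI)

/-- the exponential sum of a finite sequence of integers -/
noncomputable def WS (φ : ℕ → ℤ) (H : ℕ) (α : ℝ) : ℂ := ∑ j ∈ range H, e (α * (φ j : ℝ))

lemma WS_cont (φ : ℕ → ℤ) (H : ℕ) : Continuous (WS φ H) := by
  unfold WS
  refine continuous_finsetSum _ fun n _ => ?_
  exact e_cont.comp (by fun_prop : Continuous fun β : ℝ => β * (φ n : ℝ))

lemma WS_le (φ : ℕ → ℤ) (H : ℕ) (α : ℝ) : ‖WS φ H α‖ ≤ H := by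
  unfold WS
  refine (norm_sum_le _ _).trans ?_
  simp [norm_e]

lemma WS_neg (φ : ℕ → ℤ) (H : ℕ) (α : ℝ) : ‖WS φ H (-α)‖ = ‖WS φ H α‖ := by
  have : WS φ H (-α) = (starRingEnd ℂ) (WS φ H α) := by
    unfold WS
    rw [map_sum]
    refine sum_congr rfl fun n _ => ?_
    rw [conj_e]; congr 1; ring
  rw [this, RCLike.norm_conj]

/-- the second moment over `c` is bounded by an integral over the circle -/
theorem circle (φ : ℕ → ℤ) (g : ℤ → ℝ) (hg : ∀ v, v ≤ 0 → g v = 0) (X K H : ℕ) (s : ℤ) (hs : s = 1 ∨ s = -1)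
    (hK : ∀ c ∈ Icc (-(X : ℤ)) X, ∀ j ∈ range H, s * (φ j + c) ≤ K) :
    ∑ c ∈ Icc (-(X : ℤ)) X, (∑ j ∈ range H, g (s * (φ j + c))) ^ 2 ≤
      ∫ α in (0 : ℝ)..1, ‖FF g K α‖ ^ 2 * ‖WS φ H α‖ ^ 2 := by
  have hss : s * s = 1 := by rcases hs with h | h <;> rw [h] <;> norm_num
  have h1 := bess (Icc 1 K ×ˢ range H) (fun p => (p.1 : ℤ) - s * φ p.2)
    (fun p => ((g (p.1 : ℤ) : ℝ) : ℂ)) (Icc (-(X : ℤ)) X)
  have h2 : ∀ α : ℝ, ‖∑ p ∈ Icc 1 K ×ˢ range H, ((g (p.1 : ℤ) : ℝ) : ℂ) *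
      e ((((p.1 : ℤ) - s * φ p.2 : ℤ) : ℝ) * α)‖ ^ 2 = ‖FF g K α‖ ^ 2 * ‖WS φ H α‖ ^ 2 := by
    intro α
    have e1 : ∑ p ∈ Icc 1 K ×ˢ range H, ((g (p.1 : ℤ) : ℝ) : ℂ) *
      e ((((p.1 : ℤ) - s * φ p.2 : ℤ) : ℝ) * α) = FF g K α * WS φ H (-(s : ℝ) * α) := by
      unfold FF WS
      rw [sum_mul_sum, sum_product]
      refine sum_congr rfl fun k _ => sum_congr rfl fun n _ => ?_
      rw [mul_assoc, ← e_add]
      congr 2
      push_cast
      ring
    rw [e1, norm_mul, mul_pow]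
    congr 2
    rcases hs with h | h
    · rw [h]
      have : -((1 : ℤ) : ℝ) * α = -α := by push_cast; ring
      rw [this, WS_neg]
    · rw [h]
      have : -((-1 : ℤ) : ℝ) * α = α := by push_cast; ring
      rw [this]
  simp only [h2] at h1
  refine le_trans (le_of_eq ?_) h1
  refine sum_bij' (fun a _ => s * a) (fun a _ => s * a) ?_ ?_ ?_ ?_ ?_
  · intro a ha
    rw [mem_Icc] at ha ⊢
    rcases hs with h | h <;> rw [h] <;> constructor <;> linarith [ha.1, ha.2]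
  · intro a ha
    rw [mem_Icc] at ha ⊢
    rcases hs with h | h <;> rw [h] <;> constructor <;> linarith [ha.1, ha.2]
  · intro a _
    rw [← mul_assoc, hss, one_mul]
  · intro a _
    rw [← mul_assoc, hss, one_mul]
  · intro a ha
    have h3 : ∑ p ∈ (Icc 1 K ×ˢ range H).filter (fun p => (p.1 : ℤ) - s * φ p.2 = s * a),
        ((g (p.1 : ℤ) : ℝ) : ℂ) = ((∑ j ∈ range H, g (s * (φ j + a)) : ℝ) : ℂ) := by
      have e1 : ∑ j ∈ range H, g (s * (φ j + a)) =
          ∑ j ∈ (range H).filter (fun j : ℕ => 1 ≤ s * (φ j + a)), g (s * (φ j + a)) := by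
        rw [sum_filter]
        refine sum_congr rfl fun n _ => ?_
        split_ifs with h
        · rfl
        · exact hg _ (by omega)
      rw [e1]
      push_cast
      refine sum_bij' (fun p _ => p.2) (fun n _ => ((s * (φ n + a)).toNat, n)) ?_ ?_ ?_ ?_ ?_
      · intro p hp
        simp only [mem_filter, mem_product, mem_Icc] at hp ⊢
        refine ⟨hp.1.2, ?_⟩
        have : s * (φ p.2 + a) = p.1 := by
          linarith [hp.2, mul_add s (φ p.2) a]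
        rw [this]
        have := hp.1.1.1
        omega
      · intro n hn
        simp only [mem_filter, mem_product, mem_Icc] at hn ⊢
        have hk := hK a ha n hn.1
        have h4 : (((s * (φ n + a)).toNat : ℕ) : ℤ) = s * (φ n + a) :=
          Int.toNat_of_nonneg (by linarith [hn.2])
        refine ⟨⟨⟨?_, ?_⟩, hn.1⟩, ?_⟩
        · omega
        · omega
        · rw [h4]; ring
      · intro p hp
        simp only [mem_filter, mem_product, mem_Icc] at hp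
        have : s * (φ p.2 + a) = p.1 := by
          linarith [hp.2, mul_add s (φ p.2) a]
        ext
        · simp only [this]
          simp
        · rfl
      · intro n _
        rfl
      · intro p hp
        simp only [mem_filter, mem_product, mem_Icc] at hp
        have : s * (φ p.2 + a) = p.1 := by
          linarith [hp.2, mul_add s (φ p.2) a]
        simp only [this]
    rw [h3, Complex.norm_real, Real.norm_eq_abs, sq_abs]

/-- the decomposition into arcs, from an inverse theorem -/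
theorem arcs (F W : ℝ → ℂ) (hF : Continuous F) (hW : Continuous W) (q₀ : ℕ) (δ M H : ℝ) (hδ0 : 0 < δ)
    (hM0 : 0 ≤ M) (hH : ∀ α, ‖W α‖ ≤ H)
    (hM : ∀ α : ℝ, ‖W α‖ ^ 2 ≤ M ∨ ∃ q : ℕ, 1 ≤ q ∧ q ≤ q₀ ∧ ∃ a : ℤ, |q * α - a| < 1 ∧ |α - a / q| ≤ δ) :
    ∫ α in (0 : ℝ)..1, ‖F α‖ ^ 2 * ‖W α‖ ^ 2 ≤ M * (∫ α in (0 : ℝ)..1, ‖F α‖ ^ 2) +
      H ^ 2 * ∑ q ∈ Icc 1 q₀, ∑ a ∈ range (q + 1), ∫ β in (-δ)..δ, ‖F ((a : ℝ) / q + β)‖ ^ 2 := by
  classical
  set I : ℕ → ℕ → Set ℝ := fun q a => Set.Icc ((a : ℝ) / q - δ) ((a : ℝ) / q + δ) with hI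
  have hpt : ∀ α ∈ Set.Icc (0 : ℝ) 1, ‖F α‖ ^ 2 * ‖W α‖ ^ 2 ≤ M * ‖F α‖ ^ 2 +
      H ^ 2 * ∑ q ∈ Icc 1 q₀, ∑ a ∈ range (q + 1), (I q a).indicator (fun α => ‖F α‖ ^ 2) α := by
    intro α hα
    have hF0 : 0 ≤ ‖F α‖ ^ 2 := by positivity
    have hS0 : 0 ≤ ∑ q ∈ Icc 1 q₀, ∑ a ∈ range (q + 1), (I q a).indicator (fun α => ‖F α‖ ^ 2) α :=
      sum_nonneg fun q _ => sum_nonneg fun a _ => Set.indicator_nonneg (fun _ _ => by positivity) _
    rcases hM α with h | ⟨q, hq1, hq2, a, ha1, ha2⟩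
    · have h2 : ‖F α‖ ^ 2 * ‖W α‖ ^ 2 ≤ M * ‖F α‖ ^ 2 := by nlinarith
      have h3 : 0 ≤ H ^ 2 * ∑ q ∈ Icc 1 q₀, ∑ a ∈ range (q + 1), (I q a).indicator (fun α => ‖F α‖ ^ 2) α :=
        mul_nonneg (by positivity) hS0
      linarith
    · -- the major arcs
      have hd0 : (0 : ℝ) < q := by exact_mod_cast hq1
      have h1 := abs_lt.1 ha1
      have hn0 : 0 ≤ a := by
        have h3 : (0 : ℝ) ≤ q * α := mul_nonneg hd0.le hα.1
        have : (-1 : ℝ) < a := by linarith [h1.2]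
        have : (-1 : ℤ) < a := by exact_mod_cast this
        omega
      have hn1 : a ≤ q := by
        have h3 : (q : ℝ) * α ≤ q := by
          calc (q : ℝ) * α ≤ q * 1 := mul_le_mul_of_nonneg_left hα.2 hd0.le
            _ = q := mul_one _
        have : (a : ℝ) < q + 1 := by linarith [h1.1]
        have : a < (q : ℤ) + 1 := by exact_mod_cast this
        omega
      obtain ⟨A, hA⟩ := Int.eq_ofNat_of_zero_le hn0
      have hAr : (a : ℝ) = (A : ℝ) := by rw [hA]; push_cast; rfl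
      rw [hAr] at ha2
      have hAm : A ∈ range (q + 1) := by rw [mem_range]; omega
      have hqm : q ∈ Icc 1 q₀ := by rw [mem_Icc]; exact ⟨hq1, hq2⟩
      have hin : α ∈ I q A := by
        simp only [hI, Set.mem_Icc]
        have h3 := abs_le.1 ha2
        constructor <;> linarith [h3.1, h3.2]
      have h4 : ‖F α‖ ^ 2 ≤ ∑ q ∈ Icc 1 q₀, ∑ a ∈ range (q + 1), (I q a).indicator (fun α => ‖F α‖ ^ 2) α := by
        have h5 : ‖F α‖ ^ 2 = (I q A).indicator (fun α => ‖F α‖ ^ 2) α := by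
          rw [Set.indicator_of_mem hin]
        rw [h5]
        refine le_trans ?_ (single_le_sum (f := fun q => ∑ a ∈ range (q + 1), (I q a).indicator (fun α => ‖F α‖ ^ 2) α)
          (fun q _ => sum_nonneg fun a _ => Set.indicator_nonneg (fun _ _ => by positivity) _) hqm)
        exact single_le_sum (f := fun a => (I q a).indicator (fun α => ‖F α‖ ^ 2) α)
          (fun a _ => Set.indicator_nonneg (fun _ _ => by positivity) _) hAm
      have h6 : ‖W α‖ ^ 2 ≤ H ^ 2 := by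
        have := hH α
        gcongr
      have h7 : 0 ≤ M * ‖F α‖ ^ 2 := by positivity
      calc ‖F α‖ ^ 2 * ‖W α‖ ^ 2 ≤ ‖F α‖ ^ 2 * H ^ 2 := by gcongr
        _ = H ^ 2 * ‖F α‖ ^ 2 := by ring
        _ ≤ H ^ 2 * ∑ q ∈ Icc 1 q₀, ∑ a ∈ range (q + 1), (I q a).indicator (fun α => ‖F α‖ ^ 2) α := by gcongr
        _ ≤ _ := by linarith
  have hFi : ∀ u v : ℝ, IntervalIntegrable (fun α => ‖F α‖ ^ 2) volume u v := fun u v =>
    (hF.norm.pow 2).intervalIntegrable _ _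
  have hind : ∀ q a, IntervalIntegrable ((I q a).indicator (fun α => ‖F α‖ ^ 2)) volume 0 1 := by
    intro q a
    rw [intervalIntegrable_iff]
    exact ((intervalIntegrable_iff.1 (hFi 0 1)).indicator measurableSet_Icc)
  have hq1 : ∀ q, IntervalIntegrable (fun α => ∑ a ∈ range (q + 1),
      (I q a).indicator (fun α => ‖F α‖ ^ 2) α) volume 0 1 := fun q =>
    intg_sum _ _ fun a _ => hind q a
  have hsumi : IntervalIntegrable (fun α => ∑ q ∈ Icc 1 q₀, ∑ a ∈ range (q + 1),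
      (I q a).indicator (fun α => ‖F α‖ ^ 2) α) volume 0 1 := by
    exact intg_sum _ _ fun q _ => hq1 q
  have h1 : ∫ α in (0 : ℝ)..1, ‖F α‖ ^ 2 * ‖W α‖ ^ 2 ≤ ∫ α in (0 : ℝ)..1, (M * ‖F α‖ ^ 2 +
      H ^ 2 * ∑ q ∈ Icc 1 q₀, ∑ a ∈ range (q + 1), (I q a).indicator (fun α => ‖F α‖ ^ 2) α) := by
    refine intervalIntegral.integral_mono_on (by norm_num) ?_ ?_ hpt
    · have : Continuous fun α => ‖F α‖ ^ 2 * ‖W α‖ ^ 2 := by fun_prop
      exact this.intervalIntegrable _ _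
    · exact ((hFi 0 1).const_mul M).add (hsumi.const_mul (H ^ 2))
  refine h1.trans ?_
  rw [intervalIntegral.integral_add ((hFi 0 1).const_mul M) (hsumi.const_mul (H ^ 2)),
    intervalIntegral.integral_const_mul, intervalIntegral.integral_const_mul]
  apply add_le_add le_rfl
  apply mul_le_mul_of_nonneg_left _ (by positivity)
  rw [intervalIntegral.integral_finsetSum (fun q _ => hq1 q)]
  refine sum_le_sum fun q _ => ?_
  rw [intervalIntegral.integral_finsetSum (fun a _ => hind q a)]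
  refine sum_le_sum fun a _ => ?_
  have h2 : ∫ β in (-δ)..δ, ‖F ((a : ℝ) / q + β)‖ ^ 2 = ∫ α in ((a : ℝ) / q - δ)..((a : ℝ) / q + δ), ‖F α‖ ^ 2 := by
    have := intervalIntegral.integral_comp_add_left (fun α => ‖F α‖ ^ 2) ((a : ℝ) / q) (a := -δ) (b := δ)
    rw [this]
    rfl
  rw [h2, intervalIntegral.integral_of_le (by norm_num), intervalIntegral.integral_of_le (by linarith),
    integral_indicator measurableSet_Icc, ← integral_Icc_eq_integral_Ioc, Measure.restrict_restrict measurableSet_Icc]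
  apply setIntegral_mono_set
  · exact (hF.norm.pow 2).continuousOn.integrableOn_Icc
  · exact Filter.Eventually.of_forall fun v => by simp only [Pi.zero_apply]; positivity
  · exact (Set.inter_subset_left).eventuallyLE

/-- the second moment, without the choice of the parameters -/
theorem core (φ : ℕ → ℤ)
    (g : ℤ → ℝ) (hg : ∀ v, v ≤ 0 → g v = 0) (G0 : ℝ) (hG : ∀ v, |g v| ≤ G0)
    (X K H Y q₀ x₀ : ℕ) (s : ℤ) (hs : s = 1 ∨ s = -1)
    (hK : ∀ c ∈ Icc (-(X : ℤ)) X, ∀ j ∈ range H, s * (φ j + c) ≤ K)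
    (M : ℝ) (hM0 : 0 ≤ M) (hM : ∀ α : ℝ, ‖WS φ H α‖ ^ 2 ≤ M ∨
      ∃ q : ℕ, 1 ≤ q ∧ q ≤ q₀ ∧ ∃ a : ℤ, |q * α - a| < 1 ∧ |α - a / q| ≤ 1 / (((2 * Y : ℕ) : ℝ) + 1))
    (hY : 1 ≤ Y) (hx₀ : 1 ≤ x₀) (v : ℝ) (hv : 0 ≤ v)
    (hV : ∀ q, 1 ≤ q → q ≤ q₀ → ∀ a x : ℕ, x₀ ≤ x → x < K →
      ∑ m ∈ Ioc x (2 * x), ‖∑ n ∈ Ioc m (m + Y), (g (n : ℤ) : ℂ) * e ((a : ℝ) * n / q)‖ ^ 2 ≤ x * (Y : ℝ) ^ 2 * v) :
    ∑ c ∈ Icc (-(X : ℤ)) X, (∑ j ∈ range H, g (s * (φ j + c))) ^ 2 ≤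
      M * (K * G0 ^ 2) +
      (H : ℝ) ^ 2 * (q₀ * (q₀ + 1)) * (3 * ((x₀ + 2 * Y + 1) * G0 ^ 2 + 2 * K * v)) := by
  have hG0 : 0 ≤ G0 := (abs_nonneg _).trans (hG 0)
  refine (circle φ g hg X K H s hs hK).trans ?_
  have h1 := arcs (FF g K) (WS φ H) (FF_cont g K) (WS_cont φ H) q₀ (1 / (((2 * Y : ℕ) : ℝ) + 1)) M H
    (by positivity) hM0 (WS_le φ H) hM
  refine h1.trans ?_
  apply add_le_add
  · apply mul_le_mul_of_nonneg_left _ hM0
    rw [FF_sq]
    calc ∑ k ∈ Icc 1 K, g (k : ℤ) ^ 2 ≤ ∑ k ∈ Icc 1 K, G0 ^ 2 := by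
          refine sum_le_sum fun k _ => ?_
          rw [← sq_abs (g _)]
          exact pow_le_pow_left₀ (abs_nonneg _) (hG _) 2
      _ = K * G0 ^ 2 := by rw [sum_const, Nat.card_Icc, nsmul_eq_mul, Nat.add_sub_cancel]
  · rw [mul_assoc]
    apply mul_le_mul_of_nonneg_left _ (by positivity)
    set R : ℝ := 3 * ((x₀ + 2 * Y + 1) * G0 ^ 2 + 2 * K * v) with hR
    have hR0 : 0 ≤ R := by positivity
    calc ∑ q ∈ Icc 1 q₀, ∑ a ∈ range (q + 1),
          ∫ β in (-(1 / (((2 * Y : ℕ) : ℝ) + 1)))..(1 / (((2 * Y : ℕ) : ℝ) + 1)), ‖FF g K ((a : ℝ) / q + β)‖ ^ 2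
        ≤ ∑ q ∈ Icc 1 q₀, ∑ a ∈ range (q₀ + 1), R := by
          refine sum_le_sum fun q hq => ?_
          rw [mem_Icc] at hq
          refine (sum_le_sum (g := fun _ => R) fun a _ =>
            one_arc g G0 hG K Y (2 * Y) x₀ q a hY (by omega) hx₀ v hv (hV q hq.1 hq.2 a)).trans ?_
          apply sum_le_sum_of_subset_of_nonneg
          · exact range_subset_range.2 (by omega)
          · intro _ _ _
            exact hR0
      _ = q₀ * (q₀ + 1) * R := by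
          rw [sum_const, sum_const, Nat.card_Icc, card_range, nsmul_eq_mul, nsmul_eq_mul, Nat.add_sub_cancel]
          push_cast
          ring

end Run7.h373.QD
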